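import Pool.Agent.Work.MP_bec1e1_lv_helper42.PW

/-!
# LU_MULT: back from the blow-up
-/

set_option autoImplicit false
set_option maxHeartbeats 400000

open scoped BigOperators

namespace Pool.Agent.LCSV

open Pool.Agent.LCSE

noncomputable section

namespace MU

variable {ι C : Type} [Fintype ι] [DecidableEq ι] [Fintype C]

/-- a given configuration on `D` is not too unlikely -/
theorem cyl_ge {S : C → ℝ} {b₀ : ℝ} (hS : ∀ c, Real.exp (-b₀) ≤ S c) (h1 : ∑ c, S c = 1)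
    (D : Finset ι) (c' : ι → C) :
    Real.exp (-b₀) ^ D.card ≤ PW (fun _ : ι => S) fun c => ind (∀ i ∈ D, c i = c' i) := by
  classical
  have e1 : ∀ c : ι → C, ind (∀ i ∈ D, c i = c' i) =
      ∏ i, (fun i x => if i ∈ D then ind (x = c' i) else 1) i (c i) := by
    intro c
    by_cases h : ∀ i ∈ D, c i = c' i
    · rw [PWA.ind_pos h]
      refine (Finset.prod_eq_one fun i _ => ?_).symm
      show (if i ∈ D then ind (c i = c' i) else 1) = 1
      by_cases hi : i ∈ D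
      · rw [if_pos hi, PWA.ind_pos (h i hi)]
      · rw [if_neg hi]
    · rw [PWA.ind_neg h]
      push Not at h
      obtain ⟨i, hi, hne⟩ := h
      refine (Finset.prod_eq_zero (Finset.mem_univ i) ?_).symm
      show (if i ∈ D then ind (c i = c' i) else 1) = 0
      rw [if_pos hi, PWA.ind_neg hne]
  rw [PWA.congr _ e1, PWA.prod (fun _ : ι => S) fun i x => if i ∈ D then ind (x = c' i) else 1]
  have e2 : ∀ i : ι, (∑ x, S x * (if i ∈ D then ind (x = c' i) else 1)) =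
      if i ∈ D then S (c' i) else 1 := by
    intro i
    by_cases hi : i ∈ D
    · simp only [if_pos hi]
      rw [Finset.sum_eq_single (c' i)]
      · rw [PWA.ind_pos rfl, mul_one]
      · intro x _ hx; rw [PWA.ind_neg hx, mul_zero]
      · intro h; exact absurd (Finset.mem_univ _) h
    · simp only [if_neg hi, mul_one]; exact h1
  calc Real.exp (-b₀) ^ D.card = ∏ i ∈ D, Real.exp (-b₀) := by rw [Finset.prod_const]
    _ ≤ ∏ i ∈ D, S (c' i) := Finset.prod_le_prod (fun _ _ => (Real.exp_pos _).le) fun i _ => hS _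
    _ = ∏ i, if i ∈ D then S (c' i) else 1 := by rw [Finset.prod_ite_mem]; simp
    _ = _ := Finset.prod_congr rfl fun i _ => (e2 i).symm

/-- the estimate for a given set `D` of modified coordinates -/
theorem one_D {S : C → ℝ} {b₀ : ℝ} (hS : ∀ c, Real.exp (-b₀) ≤ S c) (h1 : ∑ c, S c = 1)
    (D : Finset ι) (A G : (ι → C) → Prop) :
    (PW (fun _ : ι => S) fun c => ind (G c ∧ ∃ c', A c' ∧ ∀ i, i ∉ D → c' i = c i)) ≤
      Real.exp (b₀ * D.card) * PW (fun _ : ι => S) fun c' =>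
        ind (A c' ∧ ∃ c, G c ∧ ∀ i, i ∉ D → c i = c' i) := by
  have hw : ∀ (i : ι) x, 0 ≤ (fun _ : ι => S) i x := fun _ x => (Real.exp_pos _).le.trans (hS x)
  have h1' : ∀ i : ι, ∑ x, (fun _ : ι => S) i x = 1 := fun _ => h1
  set e : (ι → C) → Prop := fun c => (∃ c₁, G c₁ ∧ ∀ i, i ∉ D → c₁ i = c i) ∧
    ∃ c', A c' ∧ ∀ i, i ∉ D → c' i = c i with he
  have hA : (PW (fun _ : ι => S) fun c => ind (e c)) * Real.exp (-b₀) ^ D.card ≤
      PW (fun _ : ι => S) fun c' => ind (A c' ∧ ∃ c, G c ∧ ∀ i, i ∉ D → c i = c' i) := by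
    rw [PWA.resample Dᶜ (fun _ : ι => S)
      (fun c' => ind (A c' ∧ ∃ c, G c ∧ ∀ i, i ∉ D → c i = c' i)) h1', ← PWA.mul_const]
    refine PWA.mono hw fun c => ?_
    by_cases hec : e c
    · rw [PWA.ind_pos hec, one_mul]
      obtain ⟨⟨c₁, hG, hc₁⟩, c', hA, hc'⟩ := hec
      refine (cyl_ge hS h1 D c').trans (PWA.mono hw fun c'' => PWA.ind_mono fun h => ?_)
      have hm : PWA.mix Dᶜ c c'' = c' := by
        funext i
        by_cases hi : i ∈ D
        · rw [PWA.mix_notMem (by simpa using hi)]; exact h i hi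
        · rw [PWA.mix_mem (by simpa using hi)]; exact (hc' i hi).symm
      rw [hm]
      exact ⟨hA, c₁, hG, fun i hi => (hc₁ i hi).trans (hc' i hi).symm⟩
    · rw [PWA.ind_neg hec, zero_mul]
      exact PWA.nonneg hw fun _ => PWA.ind_nonneg _
  have hG : (PW (fun _ : ι => S) fun c => ind (G c ∧ ∃ c', A c' ∧ ∀ i, i ∉ D → c' i = c i)) ≤
      PW (fun _ : ι => S) fun c => ind (e c) :=
    PWA.mono hw fun c => PWA.ind_mono fun h => ⟨⟨c, h.1, fun _ _ => rfl⟩, h.2⟩
  have hexp : Real.exp (-b₀) ^ D.card * Real.exp (b₀ * D.card) = 1 := by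
    rw [← Real.exp_nat_mul, ← Real.exp_add]
    rw [show (D.card : ℝ) * -b₀ + b₀ * D.card = 0 by ring, Real.exp_zero]
  calc _ ≤ PW (fun _ : ι => S) fun c => ind (e c) := hG
    _ = Real.exp (b₀ * D.card) *
        ((PW (fun _ : ι => S) fun c => ind (e c)) * Real.exp (-b₀) ^ D.card) := by
      rw [mul_comm (Real.exp _), mul_assoc, hexp, mul_one]
    _ ≤ _ := mul_le_mul_of_nonneg_left hA (Real.exp_pos _).le

end MU

theorem stmt_MULT : Stmt_MULT := by
  intro ι C _ _ _ _ S b₀ Λ A G r hb hS h1 _ hA _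
  have hw : ∀ (i : ι) x, 0 ≤ (fun _ : ι => S) i x := fun _ x => (Real.exp_pos _).le.trans (hS x)
  set RR := PW (fun _ : ι => S) (fun c' => ind (A c' ∧ ∃ c, G c ∧ dH Λ c c' ≤ r)) with hRR
  have hRR0 : 0 ≤ RR := PWA.ind_nonneg' hw _
  have step1 : PW (fun _ : ι => S) (fun c => ind (G c ∧ ∃ c', A c' ∧ dH Λ c c' ≤ r)) ≤
      PW (fun _ : ι => S) (fun c => ind (∃ i ∈ Finset.range (r + 1),
        ∃ D ∈ Λ.powersetCard i, G c ∧ ∃ c', A c' ∧ ∀ i, i ∉ D → c' i = c i)) := by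
    refine PWA.mono hw fun c => PWA.ind_mono ?_
    rintro ⟨hG, c', hA', hd⟩
    refine ⟨dH Λ c c', Finset.mem_range.2 (Nat.lt_succ_of_le hd), Λ.filter fun i => c i ≠ c' i,
      Finset.mem_powersetCard.2 ⟨Finset.filter_subset _ _, rfl⟩, hG, PWA.mix Λ c' c,
      (hA _ _ fun i hi => (PWA.mix_mem hi c' c).symm).1 hA', fun i hi => ?_⟩
    by_cases hiΛ : i ∈ Λ
    · rw [PWA.mix_mem hiΛ]
      by_contra hne
      exact hi (Finset.mem_filter.2 ⟨hiΛ, Ne.symm hne⟩)
    · rw [PWA.mix_notMem hiΛ]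
  have step2 : ∀ i ∈ Finset.range (r + 1), ∀ D ∈ Λ.powersetCard i,
      (PW (fun _ : ι => S) fun c => ind (G c ∧ ∃ c', A c' ∧ ∀ i, i ∉ D → c' i = c i)) ≤
        Real.exp (2 * b₀ * r) * RR := by
    intro i hi D hD
    obtain ⟨hDΛ, hDc⟩ := Finset.mem_powersetCard.1 hD
    have hir : i ≤ r := Nat.lt_succ_iff.1 (Finset.mem_range.1 hi)
    refine (MU.one_D hS h1 D A G).trans (mul_le_mul ?_ ?_ (PWA.ind_nonneg' hw _)
      (Real.exp_pos _).le)
    · refine Real.exp_le_exp.2 ?_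
      rw [hDc]
      have h2 : (i : ℝ) ≤ r := by exact_mod_cast hir
      have h3 : 0 ≤ (r : ℝ) := Nat.cast_nonneg r
      nlinarith [mul_le_mul_of_nonneg_left h2 hb, mul_nonneg hb h3]
    · refine PWA.mono hw fun c' => PWA.ind_mono ?_
      rintro ⟨hA', c, hG, hc⟩
      refine ⟨hA', c, hG, ?_⟩
      have hsub : (Λ.filter fun i => c i ≠ c' i) ⊆ D := by
        intro j hj
        by_contra hjD
        exact (Finset.mem_filter.1 hj).2 (hc j hjD)
      calc dH Λ c c' ≤ D.card := Finset.card_le_card hsub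
        _ ≤ r := hDc ▸ hir
  calc _ ≤ _ := step1
    _ ≤ ∑ i ∈ Finset.range (r + 1), ∑ D ∈ Λ.powersetCard i,
        PW (fun _ : ι => S) fun c => ind (G c ∧ ∃ c', A c' ∧ ∀ i, i ∉ D → c' i = c i) :=
      (PWA.ind_exists_le' hw _ _).trans (Finset.sum_le_sum fun i _ => PWA.ind_exists_le' hw _ _)
    _ ≤ ∑ i ∈ Finset.range (r + 1), ∑ _D ∈ Λ.powersetCard i, Real.exp (2 * b₀ * r) * RR :=
      Finset.sum_le_sum fun i hi => Finset.sum_le_sum fun D hD => step2 i hi D hD
    _ = _ := by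
      simp only [Finset.sum_const, Finset.card_powersetCard, nsmul_eq_mul]
      rw [← Finset.sum_mul]
      ring

end

end Pool.Agent.LCSV
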