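import Pool.Agent.Work.MP_bec1e1_lv_helper15.LUInterface

/-!
# API of `PW` (weighted sums over product spaces)

Namespace `Pool.Agent.LCSV.PWA`. `mix Λ c c'` is `c` on `Λ` and `c'` outside of `Λ`.
-/

set_option autoImplicit false
set_option maxHeartbeats 400000
set_option linter.unusedSectionVars false

open scoped BigOperators

namespace Pool.Agent.LCSV

open Pool.Agent.LCSE

noncomputable section

namespace PWA

/-! ### indicators -/

theorem ind_nonneg (P : Prop) : 0 ≤ ind P := by unfold ind; split_ifs <;> norm_num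

theorem ind_le_one (P : Prop) : ind P ≤ 1 := by unfold ind; split_ifs <;> norm_num

theorem ind_pos {P : Prop} (h : P) : ind P = 1 := by unfold ind; rw [if_pos h]

theorem ind_neg {P : Prop} (h : ¬ P) : ind P = 0 := by unfold ind; rw [if_neg h]

theorem ind_mono {P Q : Prop} (h : P → Q) : ind P ≤ ind Q := by
  by_cases hP : P
  · rw [ind_pos hP, ind_pos (h hP)]
  · rw [ind_neg hP]; exact ind_nonneg Q

theorem ind_congr {P Q : Prop} (h : P ↔ Q) : ind P = ind Q := le_antisymm (ind_mono h.1) (ind_mono h.2)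

theorem ind_and (P Q : Prop) : ind (P ∧ Q) = ind P * ind Q := by
  by_cases hP : P <;> by_cases hQ : Q <;> simp [ind, hP, hQ]

theorem ind_not (P : Prop) : ind (¬ P) = 1 - ind P := by
  by_cases hP : P <;> simp [ind, hP]

theorem ind_or_le (P Q : Prop) : ind (P ∨ Q) ≤ ind P + ind Q := by
  by_cases hP : P <;> by_cases hQ : Q <;> simp [ind, hP, hQ]

theorem ind_exists_le {α : Type*} (s : Finset α) (P : α → Prop) :
    ind (∃ a ∈ s, P a) ≤ ∑ a ∈ s, ind (P a) := by
  by_cases h : ∃ a ∈ s, P a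
  · rw [ind_pos h]
    obtain ⟨a, ha, hPa⟩ := h
    calc (1 : ℝ) = ind (P a) := (ind_pos hPa).symm
      _ ≤ ∑ a ∈ s, ind (P a) :=
        Finset.single_le_sum (f := fun a => ind (P a)) (fun _ _ => ind_nonneg _) ha
  · rw [ind_neg h]
    exact Finset.sum_nonneg fun _ _ => ind_nonneg _

theorem ind_mul_self (P : Prop) : ind P * ind P = ind P := by
  by_cases hP : P <;> simp [ind, hP]

/-! ### linearity -/

section Linear

variable {ι C : Type} [Fintype ι] [DecidableEq ι] [Fintype C] (w : ι → C → ℝ)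

theorem add (f g : (ι → C) → ℝ) : PW w (fun c => f c + g c) = PW w f + PW w g := by
  simp only [PW, mul_add, Finset.sum_add_distrib]

theorem sub (f g : (ι → C) → ℝ) : PW w (fun c => f c - g c) = PW w f - PW w g := by
  simp only [PW, mul_sub, Finset.sum_sub_distrib]

theorem neg (f : (ι → C) → ℝ) : PW w (fun c => - f c) = - PW w f := by
  simp only [PW, mul_neg, Finset.sum_neg_distrib]

theorem const_mul (a : ℝ) (f : (ι → C) → ℝ) : PW w (fun c => a * f c) = a * PW w f := by
  simp only [PW, Finset.mul_sum]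
  exact Finset.sum_congr rfl fun c _ => by ring

theorem mul_const (a : ℝ) (f : (ι → C) → ℝ) : PW w (fun c => f c * a) = PW w f * a := by
  simp only [PW, Finset.sum_mul]
  exact Finset.sum_congr rfl fun c _ => by ring

theorem div_const (a : ℝ) (f : (ι → C) → ℝ) : PW w (fun c => f c / a) = PW w f / a := by
  simp only [div_eq_mul_inv, mul_const]

theorem zero : PW w (fun _ => 0) = 0 := by simp [PW]

theorem fsum {α : Type*} (s : Finset α) (f : α → (ι → C) → ℝ) :
    PW w (fun c => ∑ a ∈ s, f a c) = ∑ a ∈ s, PW w (f a) := by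
  simp only [PW, Finset.mul_sum]
  rw [Finset.sum_comm]

theorem congr {f g : (ι → C) → ℝ} (h : ∀ c, f c = g c) : PW w f = PW w g := by
  rw [show f = g from funext h]

/-- Fubini -/
theorem comm {κ E : Type} [Fintype κ] [DecidableEq κ] [Fintype E] (v : κ → E → ℝ)
    (f : (ι → C) → (κ → E) → ℝ) :
    PW w (fun c => PW v (f c)) = PW v fun e => PW w fun c => f c e := by
  simp only [PW, Finset.mul_sum]
  rw [Finset.sum_comm]
  exact Finset.sum_congr rfl fun e _ => Finset.sum_congr rfl fun c _ => by ring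

theorem Ex_comm (k n : ℕ) (f : List (Fin k) → (ι → C) → ℝ) :
    (Ex k n fun V => PW w (f V)) = PW w fun c => Ex k n fun V => f V c := by
  induction n generalizing f with
  | zero => rfl
  | succ n ih =>
    simp only [Ex]
    rw [div_const, fsum]
    congr 1
    exact Finset.sum_congr rfl fun a _ => ih fun V => f (a :: V)

end Linear

/-! ### order -/

section Order

variable {ι C : Type} [Fintype ι] [DecidableEq ι] [Fintype C] {w : ι → C → ℝ}

theorem mono (hw : ∀ i x, 0 ≤ w i x) {f g : (ι → C) → ℝ} (h : ∀ c, f c ≤ g c) :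
    PW w f ≤ PW w g :=
  Finset.sum_le_sum fun c _ =>
    mul_le_mul_of_nonneg_left (h c) (Finset.prod_nonneg fun i _ => hw i (c i))

theorem nonneg (hw : ∀ i x, 0 ≤ w i x) {f : (ι → C) → ℝ} (h : ∀ c, 0 ≤ f c) : 0 ≤ PW w f :=
  Finset.sum_nonneg fun c _ => mul_nonneg (Finset.prod_nonneg fun i _ => hw i (c i)) (h c)

theorem abs_le (hw : ∀ i x, 0 ≤ w i x) (f : (ι → C) → ℝ) : |PW w f| ≤ PW w fun c => |f c| := by
  refine _root_.abs_le.2 ⟨?_, mono hw fun c => le_abs_self _⟩
  rw [← neg]
  exact mono hw fun c => neg_abs_le _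

/-- product of functions of the coordinates -/
theorem prod (w : ι → C → ℝ) (g : ι → C → ℝ) :
    PW w (fun c => ∏ i, g i (c i)) = ∏ i, ∑ x, w i x * g i x := by
  rw [Finset.prod_univ_sum, Fintype.piFinset_univ]
  exact Finset.sum_congr rfl fun c _ => by rw [Finset.prod_mul_distrib]

theorem total (w : ι → C → ℝ) : PW w (fun _ => 1) = ∏ i, ∑ x, w i x := by
  have h := prod w fun _ _ => 1
  simpa using h

theorem one (h1 : ∀ i, ∑ x, w i x = 1) : PW w (fun _ => 1) = 1 := by
  rw [total]; exact Finset.prod_eq_one fun i _ => h1 i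

theorem const (h1 : ∀ i, ∑ x, w i x = 1) (a : ℝ) : PW w (fun _ => a) = a := by
  have h := const_mul w a fun _ => 1
  simp only [mul_one] at h
  rw [h, one h1, mul_one]

theorem le_const (hw : ∀ i x, 0 ≤ w i x) (h1 : ∀ i, ∑ x, w i x = 1) {f : (ι → C) → ℝ} {a : ℝ}
    (h : ∀ c, f c ≤ a) : PW w f ≤ a := by
  calc PW w f ≤ PW w fun _ => a := mono hw h
    _ = a := const h1 a

theorem const_le (hw : ∀ i x, 0 ≤ w i x) (h1 : ∀ i, ∑ x, w i x = 1) {f : (ι → C) → ℝ} {a : ℝ}
    (h : ∀ c, a ≤ f c) : a ≤ PW w f := by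
  calc a = PW w fun _ => a := (const h1 a).symm
    _ ≤ PW w f := mono hw h

/-- the mean is attained or exceeded somewhere -/
theorem exists_ge (hw : ∀ i x, 0 ≤ w i x) (h1 : ∀ i, ∑ x, w i x = 1) (f : (ι → C) → ℝ) :
    ∃ c, PW w f ≤ f c := by
  by_contra hcon
  push Not at hcon
  have hne : ∃ c : ι → C, ∏ i, w i (c i) ≠ 0 := by
    by_contra h0
    push Not at h0
    have h := one h1
    simp only [PW, h0, zero_mul, Finset.sum_const_zero] at h
    exact zero_ne_one h
  obtain ⟨c₀, hc₀⟩ := hne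
  have hlt : PW w f < PW w fun _ => PW w f := by
    refine Finset.sum_lt_sum
      (fun c _ => mul_le_mul_of_nonneg_left (hcon c).le (Finset.prod_nonneg fun i _ => hw i (c i)))
      ⟨c₀, Finset.mem_univ _, mul_lt_mul_of_pos_left (hcon c₀) ?_⟩
    exact lt_of_le_of_ne (Finset.prod_nonneg fun i _ => hw i (c₀ i)) (Ne.symm hc₀)
  rw [const h1] at hlt
  exact lt_irrefl _ hlt

/-- Markov -/
theorem markov (hw : ∀ i x, 0 ≤ w i x) {f : (ι → C) → ℝ} (hf : ∀ c, 0 ≤ f c) {t : ℝ} (ht : 0 < t) :
    PW w (fun c => ind (t ≤ f c)) ≤ PW w f / t := by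
  rw [le_div_iff₀ ht, ← mul_const]
  refine mono hw fun c => ?_
  by_cases h : t ≤ f c
  · rw [ind_pos h]; linarith
  · rw [ind_neg h]; simpa using hf c

/-- union bound -/
theorem ind_exists_le' (hw : ∀ i x, 0 ≤ w i x) {α : Type*} (s : Finset α)
    (P : α → (ι → C) → Prop) :
    PW w (fun c => ind (∃ a ∈ s, P a c)) ≤ ∑ a ∈ s, PW w fun c => ind (P a c) := by
  rw [← fsum]
  exact mono hw fun c => ind_exists_le s fun a => P a c

theorem ind_or_le' (hw : ∀ i x, 0 ≤ w i x) (P Q : (ι → C) → Prop) :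
    PW w (fun c => ind (P c ∨ Q c)) ≤ PW w (fun c => ind (P c)) + PW w fun c => ind (Q c) := by
  rw [← add]
  exact mono hw fun c => ind_or_le _ _

theorem ind_not' (h1 : ∀ i, ∑ x, w i x = 1) (P : (ι → C) → Prop) :
    PW w (fun c => ind (¬ P c)) = 1 - PW w fun c => ind (P c) := by
  rw [← one h1, ← sub]
  exact congr w fun c => ind_not _

theorem ind_le_one' (hw : ∀ i x, 0 ≤ w i x) (h1 : ∀ i, ∑ x, w i x = 1) (P : (ι → C) → Prop) :
    PW w (fun c => ind (P c)) ≤ 1 := le_const hw h1 fun _ => ind_le_one _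

theorem ind_nonneg' (hw : ∀ i x, 0 ≤ w i x) (P : (ι → C) → Prop) :
    0 ≤ PW w (fun c => ind (P c)) := nonneg hw fun _ => ind_nonneg _

/-- comparison of weights with product densities -/
theorem le_of_le {w' : ι → C → ℝ} (hw : ∀ i x, 0 ≤ w i x) (h : ∀ i x, w i x ≤ w' i x)
    {f : (ι → C) → ℝ} (hf : ∀ c, 0 ≤ f c) : PW w f ≤ PW w' f :=
  Finset.sum_le_sum fun c _ => mul_le_mul_of_nonneg_right
    (Finset.prod_le_prod (fun i _ => hw i (c i)) fun i _ => h i (c i)) (hf c)

/-- density: `PW (w g) f = PW w (∏ g · f)` -/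
theorem density (w g : ι → C → ℝ) (f : (ι → C) → ℝ) :
    PW (fun i x => w i x * g i x) f = PW w fun c => (∏ i, g i (c i)) * f c := by
  refine Finset.sum_congr rfl fun c _ => ?_
  rw [Finset.prod_mul_distrib]; ring

end Order

/-! ### mixing, marginalisation, independence -/

section Mix

variable {ι C : Type}

/-- `c` on `Λ`, `c'` outside -/
def mix [DecidableEq ι] (Λ : Finset ι) (c c' : ι → C) : ι → C := fun i => if i ∈ Λ then c i else c' i

variable [DecidableEq ι]

@[simp] theorem mix_mem {Λ : Finset ι} {i : ι} (h : i ∈ Λ) (c c' : ι → C) : mix Λ c c' i = c i :=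
  if_pos h

@[simp] theorem mix_notMem {Λ : Finset ι} {i : ι} (h : i ∉ Λ) (c c' : ι → C) :
    mix Λ c c' i = c' i := if_neg h

theorem mix_mix (Λ : Finset ι) (c c' : ι → C) : mix Λ (mix Λ c c') (mix Λ c' c) = c := by
  funext i
  by_cases h : i ∈ Λ <;> simp [h]

/-- the involution `(c, c') ↦ (mix Λ c c', mix Λ c' c)` -/
def mixEquiv (Λ : Finset ι) : ((ι → C) × (ι → C)) ≃ ((ι → C) × (ι → C)) where
  toFun p := (mix Λ p.1 p.2, mix Λ p.2 p.1)
  invFun p := (mix Λ p.1 p.2, mix Λ p.2 p.1)
  left_inv p := by simp [mix_mix]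
  right_inv p := by simp [mix_mix]

/-- a function which only depends on the coordinates in `Λ` -/
def FDep (Λ : Finset ι) (f : (ι → C) → ℝ) : Prop := ∀ c c' : ι → C, (∀ i ∈ Λ, c i = c' i) → f c = f c'

theorem FDep.mix {Λ : Finset ι} {f : (ι → C) → ℝ} (h : FDep Λ f) (c c' : ι → C) :
    f (PWA.mix Λ c c') = f c := h _ _ fun _ hi => mix_mem hi c c'

theorem FDep.mix_compl {Λ Λ' : Finset ι} {f : (ι → C) → ℝ} (h : FDep Λ' f) (hd : Disjoint Λ Λ')
    (c c' : ι → C) : f (PWA.mix Λ c c') = f c' :=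
  h _ _ fun _ hi => mix_notMem (fun hi' => Finset.disjoint_left.1 hd hi' hi) c c'

theorem FDep.mono {Λ Λ' : Finset ι} {f : (ι → C) → ℝ} (h : FDep Λ f) (hs : Λ ⊆ Λ') : FDep Λ' f :=
  fun c c' hc => h c c' fun i hi => hc i (hs hi)

theorem FDep.ind {Λ : Finset ι} {A : (ι → C) → Prop} (h : DepOn Λ A) : FDep Λ fun c => ind (A c) :=
  fun c c' hc => ind_congr (h c c' hc)

variable [Fintype ι] [Fintype C]

/-- general mixing formula: the coordinates in `Λ` have weights `w`, the others have weights `w'` -/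
theorem mix_eq (Λ : Finset ι) (w w' : ι → C → ℝ) (f : (ι → C) → ℝ)
    (h : ∀ i, i ∉ Λ → ∑ x, w i x = 1) (h' : ∀ i ∈ Λ, ∑ x, w' i x = 1) :
    PW (fun i => if i ∈ Λ then w i else w' i) f = PW w fun c => PW w' fun c' => f (mix Λ c c') := by
  have hone : PW (fun i => if i ∈ Λ then w' i else w i) (fun _ : ι → C => 1) = 1 := by
    refine one fun i => ?_
    by_cases hi : i ∈ Λ
    · simpa [hi] using h' i hi
    · simpa [hi] using h i hi
  calc PW (fun i => if i ∈ Λ then w i else w' i) f
      = PW (fun i => if i ∈ Λ then w i else w' i) f *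
        PW (fun i => if i ∈ Λ then w' i else w i) (fun _ : ι → C => 1) := by rw [hone, mul_one]
    _ = ∑ p : (ι → C) × (ι → C), ((∏ i, (if i ∈ Λ then w i else w' i) (p.1 i)) * f p.1) *
        ∏ i, (if i ∈ Λ then w' i else w i) (p.2 i) := by
      simp only [PW, mul_one]
      rw [Finset.sum_mul_sum, ← Finset.univ_product_univ, Finset.sum_product]
    _ = ∑ p : (ι → C) × (ι → C), ((∏ i, w i (p.1 i)) * ∏ i, w' i (p.2 i)) * f (mix Λ p.1 p.2) := by
      refine (Fintype.sum_equiv (mixEquiv Λ) _ _ fun p => ?_).symm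
      show ((∏ i, w i (p.1 i)) * ∏ i, w' i (p.2 i)) * f (mix Λ p.1 p.2) =
        ((∏ i, (if i ∈ Λ then w i else w' i) (mix Λ p.1 p.2 i)) * f (mix Λ p.1 p.2)) *
        ∏ i, (if i ∈ Λ then w' i else w i) (mix Λ p.2 p.1 i)
      have key : ((∏ i, w i (p.1 i)) * ∏ i, w' i (p.2 i)) =
          (∏ i, (if i ∈ Λ then w i else w' i) (mix Λ p.1 p.2 i)) *
          ∏ i, (if i ∈ Λ then w' i else w i) (mix Λ p.2 p.1 i) := by
        rw [← Finset.prod_mul_distrib, ← Finset.prod_mul_distrib]
        refine Finset.prod_congr rfl fun i _ => ?_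
        by_cases hi : i ∈ Λ
        · simp [hi]
        · simp [hi, mul_comm]
      rw [key]; ring
    _ = PW w fun c => PW w' fun c' => f (mix Λ c c') := by
      simp only [PW, Finset.mul_sum]
      rw [← Finset.univ_product_univ, Finset.sum_product]
      exact Finset.sum_congr rfl fun c _ => Finset.sum_congr rfl fun c' _ => by ring

/-- resampling the coordinates outside of `Λ` -/
theorem resample (Λ : Finset ι) (w : ι → C → ℝ) (f : (ι → C) → ℝ) (h1 : ∀ i, ∑ x, w i x = 1) :
    PW w f = PW w fun c => PW w fun c' => f (mix Λ c c') := by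
  have h := mix_eq Λ w w f (fun i _ => h1 i) (fun i _ => h1 i)
  simpa using h

/-- a function of the coordinates in `Λ` only sees the weights in `Λ` -/
theorem congr_dep {Λ : Finset ι} {w w' : ι → C → ℝ} {f : (ι → C) → ℝ} (hf : FDep Λ f)
    (h1 : ∀ i, ∑ x, w i x = 1) (h1' : ∀ i, ∑ x, w' i x = 1) (h : ∀ i ∈ Λ, w i = w' i) :
    PW w f = PW w' f := by
  have e1 : PW (fun i => if i ∈ Λ then w i else w' i) f = PW w f := by
    rw [mix_eq Λ w w' f (fun i _ => h1 i) (fun i _ => h1' i)]
    refine congr w fun c => ?_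
    rw [congr w' fun c' => hf.mix c c', const h1']
  have e2 : (fun i => if i ∈ Λ then w i else w' i) = w' := by
    funext i
    by_cases hi : i ∈ Λ
    · rw [if_pos hi, h i hi]
    · rw [if_neg hi]
  rw [← e1, e2]

/-- independence -/
theorem indep {Λ Λ' : Finset ι} (hd : Disjoint Λ Λ') {w : ι → C → ℝ} {f g : (ι → C) → ℝ}
    (hf : FDep Λ f) (hg : FDep Λ' g) (h1 : ∀ i, ∑ x, w i x = 1) :
    PW w (fun c => f c * g c) = PW w f * PW w g := by
  rw [resample Λ w _ h1]
  have : ∀ c, (PW w fun c' => f (mix Λ c c') * g (mix Λ c c')) = f c * PW w g := by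
    intro c
    rw [← const_mul]
    exact congr w fun c' => by rw [hf.mix, hg.mix_compl hd]
  rw [congr w this, mul_const]

/-- functions of one coordinate -/
theorem coord {w : ι → C → ℝ} (h1 : ∀ i, ∑ x, w i x = 1) (i₀ : ι) (g : C → ℝ) :
    PW w (fun c => g (c i₀)) = ∑ x, w i₀ x * g x := by
  have h := prod w fun i x => if i = i₀ then g x else 1
  have e : ∀ c : ι → C, (∏ i, if i = i₀ then g (c i) else 1) = g (c i₀) := by
    intro c
    rw [Finset.prod_ite_eq' Finset.univ i₀ fun i => g (c i)]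
    simp
  rw [congr w e] at h
  rw [h, Finset.prod_eq_single i₀]
  · simp
  · intro i _ hi; simp [hi, h1]
  · intro hi; exact absurd (Finset.mem_univ _) hi

/-- resampling one coordinate -/
theorem update {w : ι → C → ℝ} (h1 : ∀ i, ∑ x, w i x = 1) (i₀ : ι) (f : (ι → C) → ℝ) :
    PW w f = PW w fun c => ∑ x, w i₀ x * f (Function.update c i₀ x) := by
  have h := resample {i₀}ᶜ w f h1
  rw [h]
  refine congr w fun c => ?_
  have e : ∀ c' : ι → C, mix {i₀}ᶜ c c' = Function.update c i₀ (c' i₀) := by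
    intro c'
    funext i
    by_cases hi : i = i₀
    · subst hi; simp [mix]
    · simp [mix, hi]
  rw [congr w fun c' => by rw [e c']]
  exact coord h1 i₀ fun x => f (Function.update c i₀ x)

end Mix

/-! ### reindexing -/

section Reindex

variable {ι κ C : Type} [Fintype ι] [DecidableEq ι] [Fintype κ] [DecidableEq κ] [Fintype C]

theorem reindex (e : κ ≃ ι) (w : ι → C → ℝ) (f : (ι → C) → ℝ) :
    PW w f = PW (fun j => w (e j)) fun c => f fun i => c (e.symm i) := by
  unfold PW
  refine Fintype.sum_equiv (Equiv.arrowCongr e.symm (Equiv.refl C)) _ _ fun c => ?_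
  have h1 : (fun i => (Equiv.arrowCongr e.symm (Equiv.refl C)) c (e.symm i)) = c := by
    funext i; simp
  show _ = (∏ j, w (e j) (c (e j))) *
    f (fun i => (Equiv.arrowCongr e.symm (Equiv.refl C)) c (e.symm i))
  rw [h1]
  congr 1
  exact (Fintype.prod_equiv e _ _ fun j => rfl).symm

/-- contents indexed by pairs -/
theorem curry (w : ι × κ → C → ℝ) (f : (ι × κ → C) → ℝ) :
    PW w f = PW (C := κ → C) (fun i x => ∏ j, w (i, j) (x j)) fun c => f fun p => c p.1 p.2 := by
  unfold PW
  refine Fintype.sum_equiv (Equiv.curry ι κ C) _ _ fun c => ?_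
  congr 1
  rw [Fintype.prod_prod_type]
  rfl

/-- the weights of one pack -/
theorem pack_sum (w : κ → C → ℝ) (h1 : ∀ j, ∑ x, w j x = 1) : ∑ x : κ → C, ∏ j, w j (x j) = 1 := by
  have h := one h1
  simpa [PW] using h

theorem pack_nonneg (w : κ → C → ℝ) (hw : ∀ j x, 0 ≤ w j x) (x : κ → C) : 0 ≤ ∏ j, w j (x j) :=
  Finset.prod_nonneg fun j _ => hw j (x j)

/-- contents indexed by a sum type -/
theorem sumType (w : ι ⊕ κ → C → ℝ) (f : (ι ⊕ κ → C) → ℝ) :
    PW w f = PW (fun i => w (Sum.inl i)) fun c => PW (fun j => w (Sum.inr j)) fun c' =>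
      f (Sum.elim c c') := by
  simp only [PW, Finset.mul_sum]
  rw [← Finset.sum_product', Finset.univ_product_univ]
  refine Fintype.sum_equiv (Equiv.sumArrowEquivProdArrow ι κ C) _ _ fun c => ?_
  have h1 : Sum.elim ((Equiv.sumArrowEquivProdArrow ι κ C) c).1
      ((Equiv.sumArrowEquivProdArrow ι κ C) c).2 = c := by
    funext i; cases i <;> rfl
  rw [h1, Fintype.prod_sum_type, mul_assoc]
  rfl

/-- head and tail -/
theorem cons {n : ℕ} (w : Fin (n + 1) → C → ℝ) (f : (Fin (n + 1) → C) → ℝ) :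
    PW w f = ∑ x, w 0 x * PW (fun i : Fin n => w i.succ) fun c => f (Fin.cons x c) := by
  simp only [PW, Finset.mul_sum]
  rw [← Finset.sum_product', Finset.univ_product_univ]
  refine Fintype.sum_equiv (Fin.consEquiv fun _ => C).symm _ _ fun c => ?_
  rw [Fin.prod_univ_succ]
  have h1 : (Fin.consEquiv fun _ => C).symm c = (c 0, Fin.tail c) := rfl
  rw [h1]
  simp only [Fin.cons_self_tail, Fin.tail]
  ring

theorem zeroIdx (w : Fin 0 → C → ℝ) (f : (Fin 0 → C) → ℝ) : PW w f = f Fin.elim0 := by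
  unfold PW
  rw [Fintype.sum_unique]
  simp only [Finset.univ_eq_empty, Finset.prod_empty, one_mul]
  exact congrArg f (Subsingleton.elim _ _)

/-- change of the type of contents -/
theorem mapC {E : Type} [Fintype E] (e : E ≃ C) (w : ι → C → ℝ) (f : (ι → C) → ℝ) :
    PW w f = PW (fun i x => w i (e x)) fun c => f fun i => e (c i) := by
  unfold PW
  refine Fintype.sum_equiv (Equiv.arrowCongr (Equiv.refl ι) e.symm) _ _ fun c => ?_
  simp

end Reindex

/-! ### `Ex` as `PW` -/

section ExPW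

/-- words of length `n` as functions -/
theorem Ex_eq (k n : ℕ) (f : List (Fin k) → ℝ) :
    Ex k n f = PW (fun (_ : Fin n) (_ : Fin k) => 1 / (k : ℝ)) fun c => f (List.ofFn c) := by
  induction n generalizing f with
  | zero => rw [zeroIdx]; simp
  | succ n ih =>
    rw [cons]
    simp only [Ex, List.ofFn_cons]
    rw [Finset.sum_div]
    refine Finset.sum_congr rfl fun a _ => ?_
    rw [ih fun w => f (a :: w)]
    ring

/-- `K` words of length `n` -/
theorem Ex_mul_eq (k K n : ℕ) (f : List (Fin k) → ℝ) :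
    Ex k (K * n) f = PW (C := Fin n → Fin k) (fun (_ : Fin K) _ => 1 / (k : ℝ) ^ n) fun c =>
      f (List.flatten (List.ofFn fun i => List.ofFn (c i))) := by
  induction K generalizing f with
  | zero => rw [zeroIdx]; simp [Ex]
  | succ K ih =>
    rw [cons]
    have h1 : (K + 1) * n = n + K * n := by ring
    rw [h1, Ex_append, Ex_eq]
    unfold PW
    refine Finset.sum_congr rfl fun a _ => ?_
    congr 1
    · simp
    · have e := ih fun v => f (List.ofFn a ++ v)
      simpa [PW, List.ofFn_cons] using e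

end ExPW

end PWA

end

end Pool.Agent.LCSV
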